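import Pool.Agent.H7.HD.Targets7
import Pool.Agent.H14.HD.QE

/-!
# MP_e37c09_lc, module DV: definability of `gx` and `vx`
-/

set_option autoImplicit false

open Ordinal Cardinal Order Set
open scoped ZFSet

universe u

namespace Pool.Agent.H56.HD.DV

open _root_.HD Pool.Agent.H14.HD.QE

theorem df_gx {x : Ordinal.{u} → Ordinal.{u} → Prop} (hx : DR x) :
    DF fun w => gx x (w 0) (w 1) := by
  refine DF.sinf (A := fun b w => ∀ i < w 0, x (w 1) i → i < b) ?_
  refine DO.allLt (R := fun i w => x (w 2) i → i < w 0) 1 ?_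
  exact (DO.s2 (X := fun a b => x a b) hx 3 0).imp (DO.lt 0 1)

theorem df_vx {en : Ordinal.{u} → ZFSet.{u}} (hen : EN en) (N : Cardinal.{u}) (d : Ordinal.{u})
    {x : Ordinal.{u} → Ordinal.{u} → Prop} (hx : DR x) :
    DF fun w => vx en N d x (w 0) (w 1) := by
  have hE := (HD.All.ea en hen).1
  refine DF.sinf (A := fun t w => ¬ Pos N.ord (w 1) {z | z ∈ E en d ∧ t ≤ gx x (w 0) z}) ?_
  refine DO.not ?_
  refine DO.sub N.ord (R := fun m w => Pos m (w 2) {z | z ∈ E en d ∧ w 0 ≤ gx x (w 1) z}) ?_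
  refine HD.All.da 0 3 (fun z w => z ∈ E en d ∧ w 1 ≤ gx x (w 2) z) ?_
  refine DO.and ?_ ?_
  · exact DO.sub d (R := fun c w => w 0 ∈ E en c) (hE.s2 (X := fun x y => x ∈ E en y) 1 0)
  · have hG : DF fun w => gx x (w 3) (w 0) :=
      DO.s3 (X := fun y a z => y = gx x a z) (df_gx hx) 0 4 1
    exact DF.sub (P := fun t w => w 2 ≤ t) hG (DO.le 3 0)

/-- module DV -/
theorem X : T_DV.{u} := by
  intro en N d x hen hx
  exact ⟨DO.s3 (X := fun y a z => y = gx x a z) (df_gx hx) 2 0 1,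
    DO.s3 (X := fun y a z => y = vx en N d x a z) (df_vx hen N d hx) 2 0 1⟩

end Pool.Agent.H56.HD.DV
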