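import Pool.Agent.H7.HD.Targets7

/-!
# MP_e37c09_lc, module GX: the properties of `gx`
-/

set_option autoImplicit false

open Ordinal Cardinal Order Set
open scoped ZFSet

universe u

namespace Pool.Agent.H56.HD.GX

open _root_.HD

theorem gx_nonempty (x : Ordinal.{u} → Ordinal.{u} → Prop) (a z : Ordinal.{u}) :
    a ∈ {b | ∀ i < a, x z i → i < b} := fun _ hi _ => hi

theorem gx_le (x : Ordinal.{u} → Ordinal.{u} → Prop) (a z : Ordinal.{u}) : gx x a z ≤ a :=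
  csInf_le' (gx_nonempty x a z)

theorem lt_gx (x : Ordinal.{u} → Ordinal.{u} → Prop) (a z i : Ordinal.{u}) (hi : i < a)
    (hx : x z i) : i < gx x a z :=
  (csInf_mem ⟨a, gx_nonempty x a z⟩ : gx x a z ∈ {b | ∀ i < a, x z i → i < b}) i hi hx

/-- module GX -/
theorem X : T_GX.{u} := by
  intro x
  refine ⟨gx_le x, lt_gx x, fun κ lam a z hκ ha hr hm => ?_⟩
  have hm' : os lam {i | x z i} ∈ PkHOD a lam := by
    unfold PkHOD at hm ⊢
    rw [ZFSet.mem_sep] at hm ⊢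
    obtain ⟨h1, τ, hτ, h2⟩ := hm
    exact ⟨h1, τ, hτ.trans_le hκ, h2⟩
  obtain ⟨b, hb, h⟩ := All.bd a lam _ hr hm'
  refine lt_of_le_of_lt (csInf_le' ?_) hb
  intro i hi hx
  exact h i hi (ord_mem_os.2 ⟨hi.trans_le ha, hx⟩)

end Pool.Agent.H56.HD.GX
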