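import Pool.Agent.H7.HD.Targets6
import Pool.Agent.H3.HD.Iter

/-!
# MP_e37c09_lc, module LK: few cardinals of HOD
-/

set_option autoImplicit false

open Ordinal Cardinal Order Set
open scoped ZFSet

universe u

namespace Pool.Agent.H56.HD.LK

open _root_.HD

/-- module LK -/
theorem X : T_LK.{u} := by
  intro D K lam hD hK hDK hF
  by_contra hlt
  push Not at hlt
  have hS : (succ K).IsRegular := Cardinal.isRegular_succ hK.aleph0_le
  obtain ⟨C, hC, hCi⟩ := HD.All.kd D (succ K) hD hS (hDK.trans (Order.lt_succ K))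
  have hsub : ∀ a ∈ C, K.ord ≤ a → a < (succ K).ord → a ∈ SH K.ord lam := by
    intro a ha h1 h2
    have hreg := (hCi a ha h2).2.1
    refine ⟨h1, h2.trans_le hlt, fun b hb hon => hreg.2 ?_⟩
    obtain ⟨f, hf, hfn, hfs⟩ := hon
    refine ⟨b, hb, f, hf, hfn, fun c hc => ?_⟩
    obtain ⟨x, hx, hp⟩ := hfs c hc
    exact ⟨x, hx, c, le_rfl, hp⟩
  obtain ⟨τ, hτ, g, hg⟩ := hF
  have hcof : τ.card < (succ K).ord.cof := by
    rw [hS.cof_ord]
    exact (Cardinal.lt_ord.1 hτ).trans (hDK.trans (Order.lt_succ K))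
  have hKS : K.ord < (succ K).ord := Cardinal.ord_lt_ord.2 (Order.lt_succ K)
  classical
  obtain ⟨s, hs, hsb⟩ := Pool.Agent.H3.HD.exists_bound hcof
    (fun i => if g i < (succ K).ord then g i else 0) (fun i hi => by
      split_ifs with h
      · exact h
      · exact lt_of_le_of_lt (zero_le) hKS)
  obtain ⟨b, hb, hb1, hbC⟩ := hC.unb (max s K.ord) (max_lt hs hKS)
  obtain ⟨i, hi, hgi⟩ := hg b (hsub b hbC ((le_max_right _ _).trans hb1.le) hb)
  have h1 := hsb i hi
  simp only [hgi, hb, if_true] at h1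
  exact absurd ((le_max_left _ _).trans_lt hb1) (not_lt_of_ge h1)

end Pool.Agent.H56.HD.LK
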